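import Pool.Agent.H31.CN.T1
import Pool.Agent.H31.CN.T2

/-!
# (INN) the sum over the discriminants for fixed `e`, `A` in the main range
-/

set_option autoImplicit false

open MeasureTheory Set Filter
open scoped Real Matrix MatrixGroups
open Pool.Agent.H31.CN

namespace Pool.Agent.H38.CN

theorem nrt_le (q : ℕ) (A B C : ℤ) : nrt q A B C ≤ q := by
  unfold nrt
  exact (Finset.card_filter_le _ _).trans (by simp)

theorem N1_le (p A : ℕ) (B C : ℤ) (e : ℕ) : N1 p A B C e ≤ 1 + p := by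
  unfold N1
  have := nrt_le p A B C
  split_ifs <;> omega

theorem N2_le (p A : ℕ) (B C : ℤ) (e : ℕ) : N2 p A B C e ≤ 1 + p + p + p ^ 2 := by
  unfold N2
  have h1 := nrt_le p ((A / p : ℕ) : ℤ) B (p * C)
  have h2 := nrt_le p A B C
  have h3 := nrt_le (p ^ 2) A B C
  generalize nrt p ((A / p : ℕ) : ℤ) B (p * C) = a at h1 ⊢
  generalize nrt p A B C = b at h2 ⊢
  generalize nrt (p ^ 2) A B C = c at h3 ⊢
  generalize p ^ 2 = d at *
  split_ifs <;> omega

theorem Nw_le (m₁ m₂ A : ℕ) (B C : ℤ) (e : ℕ) (h1 : m₁ ≠ 0) (h2 : m₂ ≠ 0) :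
    Nw m₁ m₂ A B C e ≤ (m₁ * m₂) ^ 4 := by
  unfold Nw
  have hm : m₁ * m₂ ≠ 0 := mul_ne_zero h1 h2
  calc _ ≤ ∏ p ∈ (m₁ * m₂).primeFactors, p ^ 4 := by
        refine Finset.prod_le_prod' fun p hp => ?_
        have hp2 : 2 ≤ p := (Nat.prime_of_mem_primeFactors hp).two_le
        have e1 : 1 + p ≤ p ^ 2 := by nlinarith
        have e2 : 1 + p + p + p ^ 2 ≤ p ^ 4 := by
          have : p ^ 4 = p ^ 2 * p ^ 2 := by ring
          rw [this]
          nlinarith
        have e3 : p ^ 2 ≤ p ^ 4 := Nat.pow_le_pow_right (by omega) (by norm_num)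
        split_ifs
        · exact (N2_le p A B C e).trans e2
        · exact (N1_le p A B C e).trans (e1.trans e3)
    _ = (∏ p ∈ (m₁ * m₂).primeFactors, p) ^ 4 := Finset.prod_pow _ _ _
    _ ≤ (m₁ * m₂) ^ 4 := Nat.pow_le_pow_left
        (Nat.le_of_dvd (Nat.pos_of_ne_zero hm) (Nat.prod_primeFactors_dvd _)) _

theorem sum_period_shift (q : ℕ) (f : ℤ → ℝ) (hf : ∀ C, f (C + q) = f C) (t : ℤ) :
    ∑ C ∈ Finset.range q, f (C + t) = ∑ C ∈ Finset.range q, f C := by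
  have step : ∀ g : ℤ → ℝ, (∀ C, g (C + q) = g C) →
      ∑ C ∈ Finset.range q, g (C + 1) = ∑ C ∈ Finset.range q, g C := by
    intro g hg
    have h1 := Finset.sum_range_succ (fun C : ℕ => g C) q
    have h2 := Finset.sum_range_succ' (fun C : ℕ => g C) q
    have h3 : g ((q : ℕ) : ℤ) = g 0 := by have := hg 0; rwa [zero_add] at this
    simp only [Nat.cast_add, Nat.cast_one, Nat.cast_zero] at h1 h2
    rw [h1, h3] at h2
    linarith
  have per : ∀ t : ℤ, ∀ C, f (C + q + t) = f (C + t) := by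
    intro t C
    have := hf (C + t)
    rw [← this]; congr 1; ring
  induction t using Int.induction_on with
  | zero => simp
  | succ k ih =>
    rw [← ih, ← step (fun C => f (C + k)) (fun C => per k C)]
    refine Finset.sum_congr rfl fun C _ => ?_
    congr 1; ring
  | pred k ih =>
    rw [← ih, ← step (fun C => f (C + (-(k : ℤ) - 1))) (fun C => per _ C)]
    refine Finset.sum_congr rfl fun C _ => ?_
    congr 1; ring

theorem tsum_periodic (Q : ℕ) (hQ : 0 < Q) (g W : ℤ → ℝ) (hg : (Function.support g).Finite)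
    (hW : ∀ C, W (C + Q) = W C) :
    ∑' C : ℤ, g C * W C = ∑ c ∈ Finset.range Q, W c * ∑' j : ℤ, g (c + Q * j) := by
  have : NeZero Q := ⟨hQ.ne'⟩
  have hper : ∀ (j : ℤ) (c : ℤ), W (c + Q * j) = W c := by
    intro j c
    have h : Function.Periodic W (Q : ℤ) := hW
    have := (h.int_mul j) c
    rwa [Int.cast_id, mul_comm] at this
  have hs : Summable (fun C : ℤ => g C * W C) := by
    refine summable_of_hasFiniteSupport (hg.subset fun C hC => ?_)
    rw [Function.mem_support] at hC ⊢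
    exact left_ne_zero_of_mul hC
  have hs2 : Summable (fun p : ℤ × Fin Q => g ((Int.divModEquiv Q).symm p) *
      W ((Int.divModEquiv Q).symm p)) :=
    ((Int.divModEquiv Q).symm.summable_iff).2 hs
  rw [← (Int.divModEquiv Q).symm.tsum_eq, hs2.tsum_prod' (fun b => hs2.prod_factor b)]
  have hval : ∀ (j : ℤ) (c : Fin Q), (Int.divModEquiv Q).symm (j, c) = (c : ℕ) + Q * j := by
    intro j c
    simp [Int.divModEquiv]
    ring
  simp_rw [hval]
  have hsj : ∀ c : ℤ, Summable (fun j : ℤ => g (c + Q * j)) := by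
    intro c
    refine summable_of_hasFiniteSupport ?_
    refine Set.Finite.subset (hg.preimage (f := fun j : ℤ => c + Q * j) ?_) ?_
    · intro a _ b _ hab
      have hQ' : (Q : ℤ) ≠ 0 := by exact_mod_cast hQ.ne'
      have : (Q : ℤ) * a = Q * b := by simpa using hab
      exact mul_left_cancel₀ hQ' this
    · intro j hj; exact hj
  simp_rw [tsum_fintype]
  rw [Summable.tsum_finsetSum]
  · rw [Finset.sum_range]
    refine Finset.sum_congr rfl fun c _ => ?_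
    rw [← tsum_mul_left]
    refine tsum_congr fun j => ?_
    rw [hper j c]; ring
  · intro c _
    have : (fun j : ℤ => g ((c : ℕ) + Q * j) * W ((c : ℕ) + Q * j)) =
        fun j : ℤ => g ((c : ℕ) + Q * j) * W (c : ℕ) := by
      funext j; rw [hper]
    rw [this]
    exact (hsj _).mul_right _

/-- the function to be summed -/
noncomputable def gB (G : ℝ → ℝ) (X x A B u : ℝ) : ℝ :=
  G u * Vk (x / Real.sqrt (X * u)) * zf A B (X * u)

theorem gB_zero {G : ℝ → ℝ} {η : ℝ} (hG : ∀ u, u ∉ Icc η 1 → G u = 0) (X x A B u : ℝ)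
    (hu : u ∉ Icc η 1) : gB G X x A B u = 0 := by
  unfold gB; rw [hG u hu]; ring

theorem Inn_eq (G : ℝ → ℝ) (η : ℝ) (hη : 0 < η) (hG : ∀ u, u ∉ Icc η 1 → G u = 0) (X : ℝ)
    (hX : 0 < X) (n m₁ m₂ : ℕ) (w : ℕ → ℕ → ℤ → ℤ → ℝ) (e A : ℕ) (hA : 1 ≤ A) :
    Inn G X n m₁ m₂ w e A = ∑ B ∈ Finset.range (2 * A), ∑' C : ℤ,
      (gB G X ((e : ℝ) ^ 2 * A / ((n : ℝ) * m₁ * m₂)) A B ((4 * A * C - (B : ℝ) ^ 2) / X) /
        Real.sqrt ((e : ℝ) ^ 2 * A)) * (w e A B C * Nw m₁ m₂ A B C e) := by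
  unfold Inn
  have h0 : ∀ Δ : ℕ, G (Δ / X) * ∑ B ∈ (Finset.range (2 * A)).filter (fun B => 4 * A ∣ B ^ 2 + Δ),
      Vk ((e : ℝ) ^ 2 * A / ((n : ℝ) * m₁ * m₂ * Real.sqrt Δ)) / Real.sqrt ((e : ℝ) ^ 2 * A) *
      w e A B (((B ^ 2 + Δ) / (4 * A) : ℕ) : ℤ) *
      Nw m₁ m₂ A B (((B ^ 2 + Δ) / (4 * A) : ℕ) : ℤ) e * zf A B Δ =
      ∑ B ∈ Finset.range (2 * A), if 4 * A ∣ B ^ 2 + Δ then
        (gB G X ((e : ℝ) ^ 2 * A / ((n : ℝ) * m₁ * m₂)) A B ((Δ : ℝ) / X) /
        Real.sqrt ((e : ℝ) ^ 2 * A)) * (w e A B (((B ^ 2 + Δ) / (4 * A) : ℕ) : ℤ) *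
          Nw m₁ m₂ A B (((B ^ 2 + Δ) / (4 * A) : ℕ) : ℤ) e) else 0 := by
    intro Δ
    rw [Finset.mul_sum, Finset.sum_filter]
    refine Finset.sum_congr rfl fun B _ => ?_
    split_ifs
    · unfold gB
      rw [mul_div_cancel₀ _ hX.ne', div_div]
      ring
    · rfl
  simp_rw [h0]
  rw [Summable.tsum_finsetSum]
  · refine Finset.sum_congr rfl fun B _ => ?_
    set F : ℕ → ℝ := fun Δ => if 4 * A ∣ B ^ 2 + Δ then
        (gB G X ((e : ℝ) ^ 2 * A / ((n : ℝ) * m₁ * m₂)) A B ((Δ : ℝ) / X) /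
        Real.sqrt ((e : ℝ) ^ 2 * A)) * (w e A B (((B ^ 2 + Δ) / (4 * A) : ℕ) : ℤ) *
          Nw m₁ m₂ A B (((B ^ 2 + Δ) / (4 * A) : ℕ) : ℤ) e) else 0 with hF
    set H : ℤ → ℝ := fun C => (gB G X ((e : ℝ) ^ 2 * A / ((n : ℝ) * m₁ * m₂)) A B
        ((4 * A * C - (B : ℝ) ^ 2) / X) /
        Real.sqrt ((e : ℝ) ^ 2 * A)) * (w e A B C * Nw m₁ m₂ A B C e) with hH
    have hA4 : 0 < 4 * A := by omega
    have key : ∀ Δ : ℕ, 4 * A ∣ B ^ 2 + Δ → H (((B ^ 2 + Δ) / (4 * A) : ℕ) : ℤ) = F Δ := by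
      intro Δ hd
      have h1 : 4 * A * ((B ^ 2 + Δ) / (4 * A)) = B ^ 2 + Δ := Nat.mul_div_cancel' hd
      have h2 : (4 * (A : ℝ) * ((((B ^ 2 + Δ) / (4 * A) : ℕ) : ℤ) : ℝ) - (B : ℝ) ^ 2) = Δ := by
        have : (4 * (A : ℝ) * (((B ^ 2 + Δ) / (4 * A) : ℕ) : ℝ)) = (B : ℝ) ^ 2 + Δ := by
          exact_mod_cast h1
        rw [Int.cast_natCast, this]; ring
      simp only [hF, hH]
      rw [if_pos hd, h2]
    have hdv : ∀ Δ : ℕ, F Δ ≠ 0 → 4 * A ∣ B ^ 2 + Δ := by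
      intro Δ h
      by_contra hn
      exact h (by simp only [hF]; rw [if_neg hn])
    refine (tsum_eq_tsum_of_ne_zero_bij (f := H) (g := F)
      (fun Δ => (((B ^ 2 + (Δ : ℕ)) / (4 * A) : ℕ) : ℤ)) ?_ ?_ ?_).symm
    · intro a b hab
      have h1 : 4 * A * ((B ^ 2 + (a : ℕ)) / (4 * A)) = B ^ 2 + a :=
        Nat.mul_div_cancel' (hdv a a.2)
      have h2 : 4 * A * ((B ^ 2 + (b : ℕ)) / (4 * A)) = B ^ 2 + b :=
        Nat.mul_div_cancel' (hdv b b.2)
      have h3 : ((B ^ 2 + (a : ℕ)) / (4 * A)) = ((B ^ 2 + (b : ℕ)) / (4 * A)) :=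
        Int.ofNat_inj.1 hab
      rw [h3, h2] at h1
      exact Subtype.ext (by omega)
    · intro C hC
      rw [Function.mem_support] at hC
      have hin : (4 * A * (C : ℝ) - (B : ℝ) ^ 2) / X ∈ Icc η 1 := by
        by_contra hn
        apply hC
        simp only [hH]
        rw [gB_zero hG _ _ _ _ _ hn]; ring
      have hpos : 0 < (4 * A * (C : ℝ) - (B : ℝ) ^ 2) := by
        have := hη.trans_le hin.1
        rwa [div_pos_iff_of_pos_right hX] at this
      have hposZ : 0 < 4 * (A : ℤ) * C - (B : ℤ) ^ 2 := by exact_mod_cast hpos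
      obtain ⟨D, hD⟩ := Int.eq_ofNat_of_zero_le hposZ.le
      have hCpos : 0 ≤ C := by
        by_contra hn
        have : 4 * (A : ℤ) * C < 0 := mul_neg_of_pos_of_neg (by positivity) (by omega)
        have h5 : (0 : ℤ) ≤ (B : ℤ) ^ 2 := by positivity
        omega
      obtain ⟨c, rfl⟩ := Int.eq_ofNat_of_zero_le hCpos
      have hnat : 4 * A * c = B ^ 2 + D := by
        have : 4 * (A : ℤ) * c = (B : ℤ) ^ 2 + D := by linarith
        exact_mod_cast this
      have hd : 4 * A ∣ B ^ 2 + D := ⟨c, hnat.symm⟩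
      have hdiv : (B ^ 2 + D) / (4 * A) = c := by
        rw [← hnat]; exact Nat.mul_div_cancel_left c hA4
      have hk := key D hd
      rw [hdiv] at hk
      refine ⟨⟨D, ?_⟩, ?_⟩
      · rw [Function.mem_support, ← hk]; exact hC
      · simp only [hdiv]
    · intro Δ
      exact key Δ (hdv Δ Δ.2)
  · intro B _
    refine summable_of_hasFiniteSupport ((Set.finite_Iic ⌊X⌋₊).subset fun Δ hΔ => ?_)
    rw [Function.mem_support] at hΔ
    rw [Set.mem_Iic]
    by_contra hn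
    have h1 : X < Δ := (Nat.floor_lt hX.le).1 (not_le.1 hn)
    apply hΔ
    have h2 : (Δ : ℝ) / X ∉ Icc η 1 := by
      intro h
      have := h.2
      rw [div_le_one hX] at this
      linarith
    rw [gB_zero hG _ _ _ _ _ h2]
    simp

/-- everything for one value of the parameters -/
theorem core (G : ℝ → ℝ) (η : ℝ) (hη : 0 < η) (hG : ∀ u, u ∉ Icc η 1 → G u = 0)
    (hLC : T_LC) (hLB : T_LB) (hcG : Continuous G)
    (hVK : ContinuousOn Vk (Ioi 0))
    (X : ℝ) (hX : 1 ≤ X) (q n m₁ m₂ : ℕ) (w : ℕ → ℕ → ℤ → ℤ → ℝ) (e A : ℕ) (K x s : ℝ)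
    (hq : 1 ≤ q) (he : 1 ≤ e) (hA : 1 ≤ A) (h1 : Squarefree m₁) (h2 : Squarefree m₂)
    (hc1 : Nat.Coprime q m₁) (hc2 : Nat.Coprime q m₂) (hw : WD q K w)
    (hx : x = (e : ℝ) ^ 2 * A / ((n : ℝ) * m₁ * m₂)) (hx0 : 0 < x)
    (hs : s = Real.sqrt ((e : ℝ) ^ 2 * A)) (hs1 : 1 ≤ s)
    (hgc : ∀ B : ℝ, Continuous (gB G X x A B))
    (Er Es : ℝ) (hEs0 : 0 ≤ Es)
    (hEr : ∀ B : ℕ, ∀ β : ℝ, |∑' j : ℤ, gB G X x A B (4 * A * (q * e) / X * j + β) -
      (1 / (4 * A * (q * e) / X)) * ∫ u, gB G X x A B u| ≤ Er)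
    (hEs : ∀ f : ℤ → ℝ, (∀ B, f (B + 2 * A) = f B) → (∀ B, f (B + (q * Nat.gcd m₁ m₂ : ℕ)) = f B) →
      (∀ B, |f B| ≤ K * ((m₁ : ℝ) * m₂) ^ 4) → ∀ u ∈ Icc η 1,
      |∑ B ∈ Finset.range (2 * A), f B * gB G X x A B u - G u * Vk (x / Real.sqrt (X * u)) *
        ct A (X * u) * ∑ B ∈ Finset.range (2 * A), f B| ≤ Es) :
    |Inn G X n m₁ m₂ w e A - Mai G X q n m₁ m₂ w e A| ≤
      2 * A * (q * e) * (K * ((m₁ : ℝ) * m₂) ^ 4) * Er + X * Es := by
  have hXp : 0 < X := by linarith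
  have hAr : (1 : ℝ) ≤ A := by exact_mod_cast hA
  have her : (1 : ℝ) ≤ e := by exact_mod_cast he
  have hqr : (1 : ℝ) ≤ q := by exact_mod_cast hq
  have hsp : 0 < s := by linarith
  have hK : 0 ≤ K := (abs_nonneg _).trans (hw.bd 0 0 0 0)
  have hm1 : m₁ ≠ 0 := h1.ne_zero
  have hm2 : m₂ ≠ 0 := h2.ne_zero
  have hQ : 0 < q * e := Nat.mul_pos (by omega) (by omega)
  -- the weight
  set W : ℤ → ℤ → ℝ := fun B C => w e A B C * Nw m₁ m₂ A B C e with hW
  have hWper : ∀ B C, W B (C + (q * e : ℕ)) = W B C := by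
    intro B C
    have := (hLC q m₁ m₂ A e B (fun C => w e A B C) hq hA he h1 h2 hc1 hc2
      (fun C => hw.perC e A B C)).1 C
    simpa using this
  have hWbd : ∀ B C, |W B C| ≤ K * ((m₁ : ℝ) * m₂) ^ 4 := by
    intro B C
    simp only [hW]
    rw [abs_mul]
    refine mul_le_mul (hw.bd _ _ _ _) ?_ (abs_nonneg _) hK
    rw [abs_of_nonneg (Nat.cast_nonneg _)]
    exact_mod_cast Nw_le m₁ m₂ A B C e hm1 hm2
  -- the average
  set f : ℤ → ℝ := fun B => ((1 / (q : ℝ)) * ∑ C ∈ Finset.range q, w e A B C) *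
      ∏ p ∈ (m₁ * m₂).primeFactors,
        (if p ∣ m₁ ∧ p ∣ m₂ then
          ((if p ^ 2 ∣ A then 1 else 0) +
            (if p ∣ A ∧ p ∣ e then (nrt p ((A / p : ℕ) : ℤ) B 0 : ℝ) else 0) +
            (if p ∣ e then 1 else 0) + (if p ^ 2 ∣ e then 1 else 0) : ℝ)
        else ((if p ∣ A then 1 else 0) + (if p ∣ e then 1 else 0) : ℝ)) with hf
  have hfav : ∀ B, f B = (1 / ((q : ℝ) * e)) * ∑ C ∈ Finset.range (q * e), W B C := by
    intro B
    have := (hLC q m₁ m₂ A e B (fun C => w e A B C) hq hA he h1 h2 hc1 hc2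
      (fun C => hw.perC e A B C)).2
    simp only [hf, hW]
    rw [this]
  have hfbd : ∀ B, |f B| ≤ K * ((m₁ : ℝ) * m₂) ^ 4 := by
    intro B
    rw [hfav B, abs_mul, abs_of_pos (by positivity)]
    have h3 : |∑ C ∈ Finset.range (q * e), W B C| ≤ (q * e) * (K * ((m₁ : ℝ) * m₂) ^ 4) := by
      refine (Finset.abs_sum_le_sum_abs _ _).trans ?_
      refine (Finset.sum_le_card_nsmul _ (fun C : ℕ => |W B C|) (K * ((m₁ : ℝ) * m₂) ^ 4)
        (fun C _ => hWbd B C)).trans ?_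
      rw [Finset.card_range, nsmul_eq_mul]; push_cast; rfl
    calc _ ≤ 1 / ((q : ℝ) * e) * ((q * e) * (K * ((m₁ : ℝ) * m₂) ^ 4)) := by gcongr
      _ = K * ((m₁ : ℝ) * m₂) ^ 4 := by field_simp
  have hwB1 : ∀ B : ℤ, (1 / (q : ℝ)) * ∑ C ∈ Finset.range q, w e A (B + q) C =
      (1 / (q : ℝ)) * ∑ C ∈ Finset.range q, w e A B C := by
    intro B
    congr 1
    exact Finset.sum_congr rfl fun C _ => hw.perB e A B C
  have hwB2 : ∀ B : ℤ, (1 / (q : ℝ)) * ∑ C ∈ Finset.range q, w e A (B + 2 * A) C =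
      (1 / (q : ℝ)) * ∑ C ∈ Finset.range q, w e A B C := by
    intro B
    congr 1
    rw [← sum_period_shift q (fun C => w e A (B + 2 * A) C) (fun C => hw.perC _ _ _ C) (A + B)]
    refine Finset.sum_congr rfl fun C _ => ?_
    rw [← hw.inv e A B C]
    congr 1; ring
  obtain ⟨hf1, hf2, hf3⟩ := hLB q m₁ m₂ A e
    (fun B => (1 / (q : ℝ)) * ∑ C ∈ Finset.range q, w e A B C) hq hA he h1 h2 hc1 hc2 hwB1 hwB2 f
    (fun B => rfl)
  have hf4 : ∑ B ∈ Finset.range (2 * A), f B = 2 * A * (wbar q w e A * Nb m₁ m₂ A e) := by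
    have h5 : wbar q w e A = (1 / (q : ℝ)) * ∑ B ∈ Finset.range q,
        (1 / (q : ℝ)) * ∑ C ∈ Finset.range q, w e A B C := by
      unfold wbar
      rw [← Finset.mul_sum, ← mul_assoc]
      congr 1
      field_simp
    rw [h5, ← hf3]
    field_simp
  -- the sum over `C`
  set I : ℕ → ℝ := fun B => ∫ u, gB G X x A B u with hI
  set h : ℝ := 4 * A * (q * e) / X with hh
  have hhp : 0 < h := by positivity
  have hInn : Inn G X n m₁ m₂ w e A = ∑ B ∈ Finset.range (2 * A), ∑ c ∈ Finset.range (q * e),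
      W B c * ((∑' j : ℤ, gB G X x A B (h * j + (4 * A * c - (B : ℝ) ^ 2) / X)) / s) := by
    rw [Inn_eq G η hη hG X hXp n m₁ m₂ w e A hA, ← hx, ← hs]
    refine Finset.sum_congr rfl fun B _ => ?_
    rw [tsum_periodic (q * e) hQ
      (fun C => gB G X x A B ((4 * A * C - (B : ℝ) ^ 2) / X) / s) (W B) ?_ (hWper B)]
    · refine Finset.sum_congr rfl fun c _ => ?_
      congr 1
      rw [← tsum_div_const]
      refine tsum_congr fun j => ?_
      congr 2
      rw [hh]; push_cast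
      field_simp
      ring
    · refine ((Set.finite_Icc (0 : ℤ) (⌈X + (B : ℝ) ^ 2⌉)).subset fun C hC => ?_)
      rw [Function.mem_support] at hC
      have hin : (4 * A * (C : ℝ) - (B : ℝ) ^ 2) / X ∈ Icc η 1 := by
        by_contra hn
        apply hC
        rw [gB_zero hG _ _ _ _ _ hn, zero_div]
      have hpos : 0 < (4 * A * (C : ℝ) - (B : ℝ) ^ 2) := by
        have := hη.trans_le hin.1
        rwa [div_pos_iff_of_pos_right hXp] at this
      have hC0 : 0 < (C : ℝ) := by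
        by_contra hn
        have : 4 * (A : ℝ) * C ≤ 0 := mul_nonpos_of_nonneg_of_nonpos (by positivity) (not_lt.1 hn)
        nlinarith [sq_nonneg (B : ℝ)]
      constructor
      · exact_mod_cast hC0.le
      · have h6 := hin.2
        rw [div_le_one hXp] at h6
        have h7 : (C : ℝ) ≤ X + (B : ℝ) ^ 2 := by
          have : (C : ℝ) ≤ 4 * A * C := by nlinarith
          linarith
        exact_mod_cast h7.trans (Int.le_ceil _)
  have hstep1 : |Inn G X n m₁ m₂ w e A - ∑ B ∈ Finset.range (2 * A), ∑ c ∈ Finset.range (q * e),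
      W B c * (((1 / h) * I B) / s)| ≤ 2 * A * (q * e) * (K * ((m₁ : ℝ) * m₂) ^ 4) * Er := by
    have hErp : 0 ≤ Er := (abs_nonneg _).trans (hEr 0 0)
    rw [hInn, ← Finset.sum_sub_distrib]
    refine (Finset.abs_sum_le_sum_abs _ _).trans ?_
    refine (Finset.sum_le_card_nsmul _ _ ((q * e) * ((K * ((m₁ : ℝ) * m₂) ^ 4) * Er)) ?_).trans ?_
    · intro B _
      rw [← Finset.sum_sub_distrib]
      refine (Finset.abs_sum_le_sum_abs _ _).trans ?_
      refine (Finset.sum_le_card_nsmul _ _ ((K * ((m₁ : ℝ) * m₂) ^ 4) * Er) ?_).trans ?_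
      · intro c _
        rw [← mul_sub, ← sub_div, abs_mul]
        refine mul_le_mul (hWbd _ _) ?_ (abs_nonneg _) (by positivity)
        rw [abs_div, abs_of_pos hsp]
        refine (div_le_self (abs_nonneg _) hs1).trans ?_
        exact hEr B _
      · rw [Finset.card_range, nsmul_eq_mul]; push_cast; rfl
    · rw [Finset.card_range, nsmul_eq_mul]; push_cast
      apply le_of_eq; ring
  -- the main term
  have hint : ∀ B : ℕ, Integrable (gB G X x A B) := by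
    intro B
    refine (hgc B).integrable_of_hasCompactSupport ?_
    refine HasCompactSupport.intro (isCompact_Icc (a := η) (b := 1)) fun u hu => ?_
    exact gB_zero hG _ _ _ _ _ hu
  have hmain : ∑ B ∈ Finset.range (2 * A), ∑ c ∈ Finset.range (q * e),
      W B c * (((1 / h) * I B) / s) =
      X / (4 * A * s) * ∫ u, ∑ B ∈ Finset.range (2 * A), f B * gB G X x A B u := by
    rw [integral_finsetSum _ (fun B _ => (hint B).const_mul _), Finset.mul_sum]
    refine Finset.sum_congr rfl fun B _ => ?_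
    rw [integral_const_mul, ← Finset.sum_mul, hfav B, hh]
    simp only [hI]
    field_simp
  have hMai : Mai G X q n m₁ m₂ w e A = X / (4 * A * s) * ∫ u, G u * Vk (x / Real.sqrt (X * u)) *
        ct A (X * u) * ∑ B ∈ Finset.range (2 * A), f B := by
    rw [integral_mul_const, hf4]
    unfold Mai
    have e1 : ∫ Δ in Ioi (0 : ℝ), G (Δ / X) *
      (Vk ((e : ℝ) ^ 2 * A / ((n : ℝ) * m₁ * m₂ * Real.sqrt Δ)) / Real.sqrt ((e : ℝ) ^ 2 * A)) *
        ct A Δ = X * ∫ u in Ioi (0 : ℝ), G u * (Vk (x / Real.sqrt (X * u)) / s) *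
          ct A (X * u) := by
      have := integral_comp_mul_left_Ioi (fun Δ => G (Δ / X) *
        (Vk ((e : ℝ) ^ 2 * A / ((n : ℝ) * m₁ * m₂ * Real.sqrt Δ)) / Real.sqrt ((e : ℝ) ^ 2 * A)) *
        ct A Δ) 0 hXp
      rw [mul_zero, smul_eq_mul] at this
      have e2 : ∀ u : ℝ, G (X * u / X) * (Vk ((e : ℝ) ^ 2 * A /
          ((n : ℝ) * m₁ * m₂ * Real.sqrt (X * u))) / Real.sqrt ((e : ℝ) ^ 2 * A)) *
        ct A (X * u) = G u * (Vk (x / Real.sqrt (X * u)) / s) * ct A (X * u) := by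
        intro u
        rw [mul_div_cancel_left₀ _ hXp.ne', hx, hs, div_div]
      simp only [e2] at this
      rw [this]
      field_simp
    rw [e1]
    have e3 : ∫ u in Ioi (0 : ℝ), G u * (Vk (x / Real.sqrt (X * u)) / s) * ct A (X * u) =
        (1 / s) * ∫ u, G u * Vk (x / Real.sqrt (X * u)) * ct A (X * u) := by
      rw [← integral_const_mul]
      have e4 : ∀ u, (1 / s) * (G u * Vk (x / Real.sqrt (X * u)) * ct A (X * u)) =
          G u * (Vk (x / Real.sqrt (X * u)) / s) * ct A (X * u) := by intro u; ring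
      simp only [e4]
      refine setIntegral_eq_integral_of_forall_compl_eq_zero fun u hu => ?_
      have : u ∉ Icc η 1 := fun h => hu (hη.trans_le h.1)
      rw [hG u this]; ring
    rw [e3]
    field_simp
    ring
  -- the difference
  have hdiff : |(∫ u, ∑ B ∈ Finset.range (2 * A), f B * gB G X x A B u) -
      ∫ u, G u * Vk (x / Real.sqrt (X * u)) * ct A (X * u) *
        ∑ B ∈ Finset.range (2 * A), f B| ≤ Es * 1 := by
    have hi1 : Integrable (fun u => ∑ B ∈ Finset.range (2 * A), f B * gB G X x A B u) :=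
      integrable_finsetSum _ fun B _ => (hint B).const_mul _
    have hi2 : Integrable (fun u => G u * Vk (x / Real.sqrt (X * u)) * ct A (X * u) *
        ∑ B ∈ Finset.range (2 * A), f B) := by
      refine Integrable.mul_const ?_ _
      have hco : ContinuousOn (fun u => G u * Vk (x / Real.sqrt (X * u)) * ct A (X * u))
          (Icc η 1) := by
        have hpos : ∀ u ∈ Icc η 1, 0 < X * u := fun u hu => mul_pos hXp (hη.trans_le hu.1)
        have hsq : ContinuousOn (fun u : ℝ => Real.sqrt (X * u)) (Icc η 1) := by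
          fun_prop
        refine (hcG.continuousOn.mul ?_).mul ?_
        · refine hVK.comp (continuousOn_const.div hsq fun u hu => ?_) fun u hu => ?_
          · exact (Real.sqrt_pos.2 (hpos u hu)).ne'
          · exact div_pos hx0 (Real.sqrt_pos.2 (hpos u hu))
        · unfold ct
          refine ContinuousOn.div_const (ContinuousOn.add ?_ continuousOn_const) _
          refine ContinuousOn.log (hsq.div_const _) fun u hu => ?_
          have := Real.sqrt_pos.2 (hpos u hu)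
          positivity
      refine (hco.integrableOn_compact isCompact_Icc).integrable_of_forall_notMem_eq_zero ?_
      intro u hu
      rw [hG u hu]; ring
    rw [← integral_sub hi1 hi2]
    rw [← setIntegral_eq_integral_of_forall_compl_eq_zero (s := Icc η 1)]
    · rw [← Real.norm_eq_abs]
      refine (norm_setIntegral_le_of_norm_le_const (C := Es) ?_ ?_).trans ?_
      · exact isCompact_Icc.measure_lt_top
      · intro u hu
        rw [Real.norm_eq_abs]
        exact hEs f hf1 hf2 hfbd u hu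
      · refine mul_le_mul_of_nonneg_left ?_ hEs0
        rw [Real.volume_real_Icc]
        exact max_le (by linarith) (by norm_num)
    · intro u hu
      rw [hG u hu]
      simp only [gB_zero hG _ _ _ _ _ hu]
      simp
  rw [mul_one] at hdiff
  have hstep2 : |(X / (4 * A * s) * ∫ u, ∑ B ∈ Finset.range (2 * A), f B * gB G X x A B u) -
      Mai G X q n m₁ m₂ w e A| ≤ X * Es := by
    rw [hMai, ← mul_sub, abs_mul, abs_of_pos (by positivity)]
    refine mul_le_mul ?_ hdiff (abs_nonneg _) hXp.le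
    refine div_le_self hXp.le ?_
    nlinarith
  rw [hmain] at hstep1
  have := abs_sub_le (Inn G X n m₁ m₂ w e A)
    (X / (4 * A * s) * ∫ u, ∑ B ∈ Finset.range (2 * A), f B * gB G X x A B u)
    (Mai G X q n m₁ m₂ w e A)
  linarith

theorem pf_INN (hDER : T_DER) (hEMC : T_EMC) (hLC : T_LC) (hLB : T_LB) (hBSU : T_BSU)
    (hVK : T_VK) : T_INN := by
  intro G η hη hGs hG q n K δ hq hn hδ hδ1
  obtain ⟨b, hb⟩ := hDER G η hη hGs hG
  set k : ℕ := ⌈(b + 17) / (3 * δ / 2)⌉₊ + 2 with hk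
  obtain ⟨C1, hC1, hD⟩ := hb k
  obtain ⟨C2, hC2, hE⟩ := hEMC k (by omega)
  obtain ⟨C3, hC3, hB⟩ := hBSU
  obtain ⟨C4, hC4, hV, -, hVd, -⟩ := hVK
  have hVc : ContinuousOn Vk (Ioi 0) := fun x hx => (hVd x hx).1.continuousAt.continuousWithinAt
  have hcG : Continuous G := hGs.continuous
  obtain ⟨MG, hMG0, hMG⟩ : ∃ MG : ℝ, 0 ≤ MG ∧ ∀ u, |G u| ≤ MG := by
    obtain ⟨M, hM⟩ := (isCompact_Icc (a := η) (b := 1)).exists_bound_of_continuousOn
      hcG.continuousOn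
    refine ⟨max M 0, le_max_right _ _, fun u => ?_⟩
    by_cases hu : u ∈ Icc η 1
    · exact (hM u hu).trans (le_max_left _ _)
    · rw [hG u hu, abs_zero]; exact le_max_right _ _
  have hqr : (1 : ℝ) ≤ q := by exact_mod_cast hq
  have hnr : (1 : ℝ) ≤ n := by exact_mod_cast hn
  set c : ℝ := Real.sqrt η / q with hc
  have hcp : 0 < c := div_pos (Real.sqrt_pos.2 hη) (by linarith)
  set c1 : ℝ := 2 * q * n * |K| * (C2 * (4 * q * n) ^ (k - 1) * (C1 * (n + 1) ^ b)) with hc1d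
  set c2 : ℝ := MG * C4 * (C3 * |K| * (n + 1) ^ 4 * ((Nat.factorial 80 : ℝ) / c ^ 80)) with hc2d
  have hc1p : 0 ≤ c1 := by positivity
  have hc2p : 0 ≤ c2 := by positivity
  refine ⟨max 1 (max (1 / η) (c1 + c2)), ?_⟩
  intro X hX m₁ m₂ w e A hw hsq1 hsq2 hq1 hq2 hm1 hm2 he hA hR
  have hX1 : 1 ≤ X := (le_max_left _ _).trans hX
  have hXη : 1 / η ≤ X := (le_max_left _ _).trans ((le_max_right _ _).trans hX)
  have hXc : c1 + c2 ≤ X := (le_max_right _ _).trans ((le_max_right _ _).trans hX)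
  have hXp : 0 < X := by linarith
  have hAr : (1 : ℝ) ≤ A := by exact_mod_cast hA
  have her : (1 : ℝ) ≤ e := by exact_mod_cast he
  have hK : 0 ≤ K := (abs_nonneg _).trans (hw.bd 0 0 0 0)
  have hKa : |K| = K := abs_of_nonneg hK
  have hm1n : 1 ≤ m₁ := Nat.pos_of_ne_zero hsq1.ne_zero
  have hm2n : 1 ≤ m₂ := Nat.pos_of_ne_zero hsq2.ne_zero
  have hm1r : (1 : ℝ) ≤ m₁ := by exact_mod_cast hm1n
  have hm2r : (1 : ℝ) ≤ m₂ := by exact_mod_cast hm2n
  -- powers of `X`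
  set Z : ℝ := X ^ (-(3 * δ / 2)) with hZ
  have hZp : 0 < Z := Real.rpow_pos_of_pos hXp _
  have hmm : (m₁ : ℝ) * m₂ ≤ X ^ (1 / 2 - 2 * δ) := by
    calc (m₁ : ℝ) * m₂ ≤ X ^ (1 / 4 - δ) * X ^ (1 / 4 - δ) := by gcongr
      _ = X ^ (1 / 2 - 2 * δ) := by rw [← Real.rpow_add hXp]; congr 1; ring
  have hmmX : (m₁ : ℝ) * m₂ ≤ X := by
    refine hmm.trans ?_
    conv_rhs => rw [← Real.rpow_one X]
    exact Real.rpow_le_rpow_of_exponent_le hX1 (by linarith)
  have hR2 : (e : ℝ) ^ 2 * A ≤ n * (X * Z) := by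
    refine hR.trans ?_
    have : X * Z = X ^ (1 / 2 - 2 * δ) * X ^ (1 / 2 + δ / 2) := by
      rw [hZ, ← Real.rpow_add hXp]
      nth_rewrite 1 [← Real.rpow_one X]
      rw [← Real.rpow_add hXp]
      congr 1; ring
    rw [this, mul_assoc (n : ℝ), mul_assoc]
    gcongr
  have hZ1 : Z ≤ 1 := Real.rpow_le_one_of_one_le_of_nonpos hX1 (by linarith)
  have hAe : (A : ℝ) * e ≤ n * (X * Z) := by
    refine le_trans ?_ hR2
    nlinarith [mul_le_mul_of_nonneg_left (mul_le_mul_of_nonneg_left her (by linarith : (0 : ℝ) ≤ e))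
      (by linarith : (0 : ℝ) ≤ A)]
  have hAeX : (A : ℝ) * e ≤ n * X := by
    refine hAe.trans ?_
    gcongr
    nlinarith
  have hAX : (A : ℝ) ≤ n * X := by
    refine le_trans ?_ hAeX
    nlinarith
  have hAX2 : (A : ℝ) + X ≤ (n + 1) * X := by linarith
  set x : ℝ := (e : ℝ) ^ 2 * A / ((n : ℝ) * m₁ * m₂) with hx
  have hx0 : 0 < x := by positivity
  set s : ℝ := Real.sqrt ((e : ℝ) ^ 2 * A) with hs
  have hs1 : 1 ≤ s := by
    rw [hs, Real.one_le_sqrt]
    nlinarith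
  have hgc : ∀ B : ℝ, ContDiff ℝ k (gB G X x A B) := fun B => (hD A B X x hAr hX1 hx0).1
  have hgd : ∀ B u : ℝ, |iteratedDeriv k (gB G X x A B) u| ≤ C1 * (A + X) ^ b := by
    intro B u
    refine ((hD A B X x hAr hX1 hx0).2 u).trans ?_
    refine mul_le_of_le_one_right (by positivity) ?_
    rw [Real.exp_le_one_iff]
    have : 0 ≤ 4 * x / Real.sqrt X := by positivity
    linarith
  set h : ℝ := 4 * A * (q * e) / X with hh
  have hhp : 0 < h := by positivity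
  set Er : ℝ := C2 * h ^ (k - 1) * (1 - 0) * (C1 * (A + X) ^ b) with hErd
  have hEr : ∀ B : ℕ, ∀ β : ℝ, |∑' j : ℤ, gB G X x A B (4 * A * (q * e) / X * j + β) -
      (1 / (4 * A * (q * e) / X)) * ∫ u, gB G X x A B u| ≤ Er := by
    intro B β
    refine hE (gB G X x A B) 0 1 (C1 * (A + X) ^ b) h β (by norm_num) hhp (by positivity)
      (hgc B) ?_ (hgd B)
    intro u hu
    exact gB_zero hG _ _ _ _ _ fun h' => hu ⟨hη.le.trans h'.1, h'.2⟩
  -- the exponential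
  set Y : ℝ := X ^ (1 / 4 : ℝ) with hY
  have hYp : 0 < Y := Real.rpow_pos_of_pos hXp _
  have hY4 : Y ^ 4 = X := by
    rw [hY, ← Real.rpow_natCast, ← Real.rpow_mul hXp.le]
    norm_num
  have hY2 : Real.sqrt X = Y ^ 2 := by
    rw [← hY4, show Y ^ 4 = (Y ^ 2) ^ 2 by ring]
    exact Real.sqrt_sq (by positivity)
  have hexp : Real.exp (-(c * Y)) ≤ (Nat.factorial 80 : ℝ) / c ^ 80 * (X ^ 20)⁻¹ := by
    have h1 := Real.pow_div_factorial_le_exp (c * Y) (by positivity) 80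
    rw [Real.exp_neg]
    have h2 : 0 < (c * Y) ^ 80 / (Nat.factorial 80 : ℝ) := by positivity
    calc (Real.exp (c * Y))⁻¹ ≤ ((c * Y) ^ 80 / (Nat.factorial 80 : ℝ))⁻¹ := by gcongr
      _ = (Nat.factorial 80 : ℝ) / c ^ 80 * (X ^ 20)⁻¹ := by
          rw [← hY4, mul_pow, inv_div]
          field_simp
  set Es : ℝ := MG * C4 * (C3 * (K * X ^ 4) * ((n + 1) * X) ^ 4 *
    ((Nat.factorial 80 : ℝ) / c ^ 80 * (X ^ 20)⁻¹)) with hEsd
  have hmm4 : ((m₁ : ℝ) * m₂) ^ 4 ≤ X ^ 4 := by gcongr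
  have hEs : ∀ f : ℤ → ℝ, (∀ B, f (B + 2 * A) = f B) →
      (∀ B, f (B + (q * Nat.gcd m₁ m₂ : ℕ)) = f B) →
      (∀ B, |f B| ≤ K * ((m₁ : ℝ) * m₂) ^ 4) → ∀ u ∈ Icc η 1,
      |∑ B ∈ Finset.range (2 * A), f B * gB G X x A B u - G u * Vk (x / Real.sqrt (X * u)) *
        ct A (X * u) * ∑ B ∈ Finset.range (2 * A), f B| ≤ Es := by
    intro f hf1 hf2 hf3 u hu
    have hup : 0 < u := hη.trans_le hu.1
    have hg1 : 1 ≤ Nat.gcd m₁ m₂ := Nat.gcd_pos_of_pos_left _ hm1n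
    have hh1 : 1 ≤ q * Nat.gcd m₁ m₂ := Nat.mul_pos hq hg1
    have hXu : 1 ≤ X * u := by
      rw [div_le_iff₀ hη] at hXη
      calc 1 ≤ X * η := hXη
        _ ≤ X * u := by gcongr; exact hu.1
    have h1 := hB A (q * Nat.gcd m₁ m₂) (X * u) (K * ((m₁ : ℝ) * m₂) ^ 4) f hA hh1 hXu hf1 hf2 hf3
    have h2 : ∑ B ∈ Finset.range (2 * A), f B * gB G X x A B u - G u * Vk (x / Real.sqrt (X * u)) *
        ct A (X * u) * ∑ B ∈ Finset.range (2 * A), f B =
        G u * Vk (x / Real.sqrt (X * u)) * (∑ B ∈ Finset.range (2 * A), f B * zf A B (X * u) -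
          ct A (X * u) * ∑ B ∈ Finset.range (2 * A), f B) := by
      have h2a : ∑ B ∈ Finset.range (2 * A), f B * gB G X x A B u =
          G u * Vk (x / Real.sqrt (X * u)) * ∑ B ∈ Finset.range (2 * A), f B * zf A B (X * u) := by
        rw [Finset.mul_sum]
        refine Finset.sum_congr rfl fun B _ => ?_
        unfold gB; ring
      rw [h2a]; ring
    rw [h2, abs_mul, abs_mul, hEsd]
    have h3 : |Vk (x / Real.sqrt (X * u))| ≤ C4 := by
      have hp : 0 < x / Real.sqrt (X * u) := div_pos hx0 (Real.sqrt_pos.2 (by positivity))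
      refine (hV _ hp).trans ?_
      refine mul_le_of_le_one_right hC4.le ?_
      rw [Real.exp_le_one_iff]
      linarith
    have h4 : Real.exp (-(Real.sqrt (X * u) / (q * Nat.gcd m₁ m₂ : ℕ))) ≤
        (Nat.factorial 80 : ℝ) / c ^ 80 * (X ^ 20)⁻¹ := by
      refine le_trans ?_ hexp
      rw [Real.exp_le_exp]
      have h5 : Real.sqrt (X * u) = Y ^ 2 * Real.sqrt u := by
        rw [Real.sqrt_mul hXp.le, hY2]
      have h6 : Real.sqrt η ≤ Real.sqrt u := Real.sqrt_le_sqrt hu.1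
      have h7 : ((q * Nat.gcd m₁ m₂ : ℕ) : ℝ) ≤ q * Y := by
        push_cast
        have h8 : ((Nat.gcd m₁ m₂ : ℕ) : ℝ) ≤ m₁ := by
          exact_mod_cast Nat.le_of_dvd hm1n (Nat.gcd_dvd_left _ _)
        have h9 : (m₁ : ℝ) ≤ Y := hm1.trans (Real.rpow_le_rpow_of_exponent_le hX1 (by linarith))
        gcongr
        exact h8.trans h9
      have h10 : (0 : ℝ) < (q * Nat.gcd m₁ m₂ : ℕ) := by exact_mod_cast hh1
      have h11 : c * Y ≤ Real.sqrt (X * u) / (q * Nat.gcd m₁ m₂ : ℕ) := by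
        calc c * Y = Y ^ 2 * Real.sqrt η / (q * Y) := by rw [hc]; field_simp
          _ ≤ Y ^ 2 * Real.sqrt u / (q * Y) := by gcongr
          _ ≤ Y ^ 2 * Real.sqrt u / (q * Nat.gcd m₁ m₂ : ℕ) := by gcongr
          _ = _ := by rw [h5]
      linarith
    have h12 : ((A : ℝ) + X * u) ^ 4 ≤ ((n + 1) * X) ^ 4 := by
      have : (A : ℝ) + X * u ≤ (n + 1) * X := by
        have : X * u ≤ X := mul_le_of_le_one_right hXp.le hu.2
        linarith
      gcongr
    refine mul_le_mul (mul_le_mul (hMG u) h3 (abs_nonneg _) hMG0) (h1.trans ?_) (abs_nonneg _)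
      (by positivity)
    gcongr
  have hEs0 : 0 ≤ Es := by positivity
  have hfin := core G η hη hG hLC hLB hcG hVc X hX1 q n m₁ m₂ w e A K x s hq he hA hsq1 hsq2 hq1 hq2
    hw hx hx0 hs hs1 (fun B => (hgc B).continuous) Er Es hEs0 hEr hEs
  refine hfin.trans ?_
  -- the two error terms
  have hZk : Z ^ (k - 1) ≤ (X ^ (b + 17))⁻¹ := by
    rw [hZ, ← Real.rpow_natCast (X ^ (-(3 * δ / 2))), ← Real.rpow_mul hXp.le,
      ← Real.rpow_natCast X (b + 17), ← Real.rpow_neg hXp.le]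
    refine Real.rpow_le_rpow_of_exponent_le hX1 ?_
    have h1 : (b + 17 : ℝ) / (3 * δ / 2) ≤ (k - 1 : ℕ) := by
      have : (k - 1 : ℕ) = ⌈(b + 17 : ℝ) / (3 * δ / 2)⌉₊ + 1 := by omega
      rw [this]
      push_cast
      linarith [Nat.le_ceil ((b + 17 : ℝ) / (3 * δ / 2))]
    rw [div_le_iff₀ (by positivity)] at h1
    push_cast
    linarith
  have hhk : h ^ (k - 1) ≤ (4 * q * n) ^ (k - 1) * (X ^ (b + 17))⁻¹ := by
    have h1 : h ≤ 4 * q * n * Z := by
      rw [hh, div_le_iff₀ hXp]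
      calc 4 * (A : ℝ) * (q * e) = 4 * q * (A * e) := by ring
        _ ≤ 4 * q * (n * (X * Z)) := by gcongr
        _ = 4 * q * n * Z * X := by ring
    calc h ^ (k - 1) ≤ (4 * q * n * Z) ^ (k - 1) := by gcongr
      _ = (4 * q * n) ^ (k - 1) * Z ^ (k - 1) := by rw [mul_pow]
      _ ≤ _ := by gcongr
  have hA1 : 2 * A * (q * e) * (K * ((m₁ : ℝ) * m₂) ^ 4) * Er ≤ c1 * (X ^ 12)⁻¹ := by
    calc 2 * A * (q * e) * (K * ((m₁ : ℝ) * m₂) ^ 4) * Er
        = 2 * q * (A * e) * (K * ((m₁ : ℝ) * m₂) ^ 4) *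
          (C2 * h ^ (k - 1) * (C1 * (A + X) ^ b)) := by rw [hErd]; ring
      _ ≤ 2 * q * (n * X) * (K * X ^ 4) *
          (C2 * ((4 * q * n) ^ (k - 1) * (X ^ (b + 17))⁻¹) * (C1 * ((n + 1) * X) ^ b)) := by
          gcongr
      _ = c1 * (X ^ 12)⁻¹ := by
          rw [hc1d, hKa, mul_pow ((n : ℝ) + 1) X b, pow_add X b 17]
          field_simp
  have hA2 : X * Es ≤ c2 * (X ^ 11)⁻¹ := by
    apply le_of_eq
    rw [hEsd, hc2d, hKa]
    field_simp
  have hfin2 : c1 * (X ^ 12)⁻¹ + c2 * (X ^ 11)⁻¹ ≤ X ^ (-10 : ℝ) := by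
    have e1 : X ^ (-10 : ℝ) = (X ^ 10)⁻¹ := by
      rw [Real.rpow_neg hXp.le]
      norm_cast
    have e2 : (X ^ 12)⁻¹ ≤ (X ^ 11)⁻¹ := by
      have : X ^ 11 ≤ X ^ 12 := pow_le_pow_right₀ hX1 (by norm_num)
      gcongr
    calc c1 * (X ^ 12)⁻¹ + c2 * (X ^ 11)⁻¹ ≤ c1 * (X ^ 11)⁻¹ + c2 * (X ^ 11)⁻¹ := by gcongr
      _ = (c1 + c2) * (X ^ 11)⁻¹ := by ring
      _ ≤ X * (X ^ 11)⁻¹ := by gcongr
      _ = X ^ (-10 : ℝ) := by rw [e1]; field_simp
  linarith

end Pool.Agent.H38.CN
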