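import Pool.Agent.H57.CN.Targets

set_option autoImplicit false

namespace Pool.Agent.H38.CN

open Pool.Agent.H68.BP Pool.Agent.H58.SF Pool.Agent.H53.NR
open Pool.Agent.H57.AR (tp ty Ty)
open Pool.Agent.H72.CH Pool.Agent.H57.CN
open Function

theorem pf_EXF (hRLX : T_RLX) : T_EXF := by
  intro V ρ 𝔹 m lv hV W _ s
  obtain ⟨M, hM⟩ := hRLX V ρ 𝔹 m lv hV 0
  obtain ⟨v₀⟩ := hV.ne
  obtain ⟨f, hf, _⟩ := hM (Fin m → W) Empty agl (fun a => a.elim) (fun a => a.elim) plev_agl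
    (fun x x' h => agl_eq h) (fun a => a.elim)
    (fun U _ => ⟨fun _ => v₀, fun x _ x' _ => by
      rw [hV.lev.pl.self]
      exact agl_le x x', fun a => a.elim⟩)
  refine ⟨f, fun w w' _ _ _ _ j hj => ?_⟩
  rw [hf]
  exact le_agl hj

end Pool.Agent.H38.CN
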