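import Pool.Agent.H57.CN.Targets

set_option autoImplicit false

namespace Pool.Agent.H38.CN

open Pool.Agent.H68.BP Pool.Agent.H58.SF Pool.Agent.H53.NR
open Pool.Agent.H53.GC (strOn sigOf)
open Pool.Agent.H57.AR (tp ty Ty)
open Pool.Agent.H57.LH (strOn_on rz_strOn)
open Pool.Agent.H44.KR (HB Amg Tyi TpOn LcN Rz)
open Pool.Agent.H72.CH Pool.Agent.H57.CN
open Function

theorem pf_LCB : T_LCB := by
  classical
  intro V ρ 𝔹 m lv hV hm R hR 𝔻 st β c hN hL N H W Λ _ s' S' hloc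
  -- the labels as relations
  have hsurj : ∀ 𝕏 : Str (NS ρ m R) W, ∃ κ : (s : NI ρ m R) → (NA ρ m R s → W) → Prop,
      𝕏 = strOn κ := fun 𝕏 => Pool.Agent.H50.PT.exists_strOn 𝕏
  choose κ hκ using hsurj
  have hRz : ∀ (f : W → ℕ) (a : Λ) (g : Set W), Rz 𝔻 id (S' a) g f ↔
      (∀ x ∈ g, ∀ y ∈ g, f x = f y → x = y) ∧ ∀ (i : NI ρ m R) (z : NA ρ m R i → W),
        (∀ q, z q ∈ g) → (NR 𝔹 lv st (bk β c) i (fun q => f (z q)) ↔ κ (S' a) i z) := by
    intro f a g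
    have h1 := rz_strOn (R := NR (R := R) 𝔹 lv st (bk β c)) (κ := κ (S' a)) (g := g) (f := f)
    rw [← hκ (S' a), ← hN.str] at h1
    exact h1
  have h1m : 0 < m := hm
  -- the sorts
  have hsing : ∀ x : W, ∃ f : W → ℕ, ∀ a, Rz 𝔻 id (S' a) {y | y ∈ s' a ∧ y ∈ ({x} : Finset W)} f :=
    fun x => hloc {x} (by simp)
  choose F hF using hsing
  let s : W → Fin m := fun x => st (F x x)
  have hs : ∀ (x : W) (a : Λ), x ∈ s' a → ∀ i : Fin m,
      (s x = i ↔ κ (S' a) (Sum.inl i) fun _ => x) := by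
    intro x a hx i
    have h1 := ((hRz (F x) a _).mp (hF x a)).2 (Sum.inl i) (fun _ => x)
      (fun _ => ⟨hx, by simp⟩)
    exact h1
  -- finitely many labels
  let Λ' : Type := {p : Set W × Str (NS ρ m R) W // ∃ a, s' a = p.1 ∧ S' a = p.2}
  have hfS : Finite (Str (NS ρ m R) W) :=
    inferInstanceAs (Finite ((l : Fin (NS ρ m R).m) → (Fin ((NS ρ m R).ar l) → W) → Prop))
  have hfΛ : Finite Λ' := inferInstance
  obtain ⟨g, hg, hg'⟩ := H W Λ' s (fun p => p.1.1) (fun p => κ p.1.2) (by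
    intro U hU
    obtain ⟨f, hf⟩ := hloc U (by omega)
    refine ⟨fun x => if ∃ a, x ∈ s' a then f x else c (s x), ?_, ?_⟩
    · intro x hx
      by_cases hx' : ∃ a, x ∈ s' a
      · show st (if ∃ a, x ∈ s' a then f x else c (s x)) = s x
        rw [if_pos hx']
        obtain ⟨a, ha⟩ := hx'
        have h1 := ((hRz f a _).mp (hf a)).2 (Sum.inl (st (f x))) (fun _ => x)
          (fun _ => ⟨ha, hx⟩)
        have h2 : NR (R := R) 𝔹 lv st (bk β c) (Sum.inl (st (f x))) (fun _ => f x) := rfl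
        exact ((hs x a ha (st (f x))).mpr (h1.mp h2)).symm
      · show st (if ∃ a, x ∈ s' a then f x else c (s x)) = s x
        rw [if_neg hx']
        exact hN.cst _
    · rintro ⟨⟨D, 𝕏⟩, a, e1, e2⟩
      change s' a = D at e1
      change S' a = 𝕏 at e2
      subst e1 e2
      have h1 := (hRz f a _).mp (hf a)
      refine ⟨?_, ?_⟩
      · intro x hx y hy hxy
        have h2 : ∃ a, x ∈ s' a := ⟨a, hx.1⟩
        have h3 : ∃ a, y ∈ s' a := ⟨a, hy.1⟩
        simp only [if_pos h2, if_pos h3] at hxy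
        exact h1.1 x hx y hy hxy
      · intro i z hz
        have h2 : (fun q => if ∃ a, z q ∈ s' a then f (z q) else c (s (z q))) =
            fun q => f (z q) := by
          funext q
          exact if_pos ⟨a, (hz q).1⟩
        rw [h2]
        exact h1.2 i z hz)
  -- the limit
  have hne : ∀ l : Fin (NS ρ m R).m, 0 < (NS ρ m R).ar l := by
    intro l
    have h1 : ∀ i : NI ρ m R, Nonempty (NA ρ m R i) := by
      rintro (i | p)
      · exact ⟨()⟩
      · exact ⟨(⟨0, by omega⟩, ⟨0, h1m⟩)⟩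
    have h2 := h1 ((Finite.equivFin (NI ρ m R)).symm l)
    exact Nat.card_pos
  obtain ⟨y, hy, _, hy'⟩ := hL.ext W ∅ (fun _ => 0) (strOn (NR (R := R) 𝔹 lv s (dk g)))
    (Set.injOn_empty _) ⟨s, g, hg, rfl⟩ (fun l z hz => (hz ⟨0, hne l⟩).elim)
  refine ⟨y, fun a => ⟨fun x _ x' _ h => hy h, fun l z hz => ?_⟩⟩
  have h1 : 𝔻 l (fun i => y (z i)) ↔ strOn (NR (R := R) 𝔹 lv s (dk g)) l z := by
    rw [← hy']
    rfl
  rw [h1]
  have h2 := (strOn_on (R := NR (R := R) 𝔹 lv s (dk g)) (R' := κ (S' a)) (x := id) (y := id)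
    (s' a)).mpr (fun i z hz => hg' ⟨(s' a, S' a), a, rfl, rfl⟩ i z hz) l z hz
  rw [← hκ (S' a)] at h2
  exact h2

end Pool.Agent.H38.CN
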